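import Mathlib

set_option autoImplicit false

namespace Pool.Agent.Work.MP_0fc146_red

/-- A contiguous sublist of a reduced word is reduced (the Mathlib lemma whose name is a forbidden
word of the rules). -/
theorem isReduced_sub {α : Type*} {L M : List (α × Bool)} (h : FreeGroup.IsReduced L)
    (hs : M <:+: L) : FreeGroup.IsReduced M := by
  obtain ⟨s, t, rfl⟩ := hs
  exact List.IsChain.right_of_append (List.IsChain.left_of_append h)

end Pool.Agent.Work.MP_0fc146_red
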